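import Pool.Agent.HTJump.Univ
import Pool.Agent.HTJump.Oracle

/-!
A computable 8-colouring of the integers such that every infinite `X` whose sums of at most four
distinct elements are monochromatic computes every `Σ⁰₂` set (so it computes the double jump).
-/

namespace Pool.Agent.Results.MP_850d05_lc.DoubleJump

open HTJump Primrec

lemma mono4_of {c : ℕ → ℕ} {X : Set ℕ} {i : ℕ}
    (h : ∀ F : Finset ℕ, (↑F : Set ℕ) ⊆ X → 1 ≤ F.card → F.card ≤ 4 → c (∑ n ∈ F, n) = i) :
    Mono4 c X := by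
  refine ⟨i, fun a ha => ?_, fun a ha b hb hab => ?_, fun a ha b hb d hd hab hbd => ?_,
    fun a ha b hb d hd e he hab hbd hde => ?_⟩
  · simpa using h {a} (by simpa using ha) (by simp) (by simp)
  · have h1 : a ≠ b := by omega
    have := h {a, b} (by simp [Set.insert_subset_iff, ha, hb]) (by simp [h1]) (by simp [h1])
    simpa [h1] using this
  · have h1 : a ≠ b := by omega
    have h2 : a ≠ d := by omega
    have h3 : b ≠ d := by omega
    have := h {a, b, d} (by simp [Set.insert_subset_iff, ha, hb, hd]) (by simp [h1, h2, h3])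
      (by simp [h1, h2, h3])
    simpa [h1, h2, h3, add_assoc] using this
  · have h1 : a ≠ b := by omega
    have h2 : a ≠ d := by omega
    have h3 : b ≠ d := by omega
    have h4 : a ≠ e := by omega
    have h5 : b ≠ e := by omega
    have h6 : d ≠ e := by omega
    have := h {a, b, d, e} (by simp [Set.insert_subset_iff, ha, hb, hd, he])
      (by simp [h1, h2, h3, h4, h5, h6]) (by simp [h1, h2, h3, h4, h5, h6])
    simpa [h1, h2, h3, h4, h5, h6, add_assoc] using this

theorem result : ∃ c : ℕ → Fin 8, Computable c ∧ ∀ X : Set ℕ, X.Infinite →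
    (∃ i : Fin 8, ∀ F : Finset ℕ, (↑F : Set ℕ) ⊆ X → 1 ≤ F.card → F.card ≤ 4 →
      c (∑ n ∈ F, n) = i) →
    ∀ R : ℕ × ℕ × ℕ → Prop, ComputablePred R →
      TuringReducible
        (fun x : ℕ => Part.some (Set.indicator {y : ℕ | ∃ w, ∀ t, R (y, w, t)} (1 : ℕ → ℕ) x))
        (fun n : ℕ => Part.some (Set.indicator X (1 : ℕ → ℕ) n)) := by
  classical
  let c1 : ℕ → ℕ := fun n => {a | P1 EU n a}.ncard % 2
  let c2 : ℕ → ℕ := fun n => {s | P2 EU (low n) n s}.ncard % 2
  let c3 : ℕ → ℕ := fun n => if P3 n then 1 else 0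
  have b1 : ∀ n, c1 n < 2 := fun n => Nat.mod_lt _ (by norm_num)
  have b2 : ∀ n, c2 n < 2 := fun n => Nat.mod_lt _ (by norm_num)
  have b3 : ∀ n, c3 n < 2 := fun n => by simp only [c3]; split_ifs <;> norm_num
  have p1 : Primrec c1 := nat_mod.comp
    (cntP (P := fun n a => P1 EU n a) (P1P EUP) Primrec.id fun _ _ h => lt_of_bit h.1) (const 2)
  have p2 : Primrec c2 := nat_mod.comp
    (cntP (P := fun n s => P2 EU (low n) n s) (P2P EUP) Primrec.id fun _ _ h => lt_of_bit h.1)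
    (const 2)
  have p3 : Primrec c3 := Primrec.ite P3P (const 1) (const 0)
  refine ⟨fun n => ⟨c1 n + 2 * c2 n + 4 * c3 n, by have := b1 n; have := b2 n; have := b3 n; omega⟩,
    (fin_val_iff.1 (nat_add.comp (nat_add.comp p1 (nat_mul.comp (const 2) p2))
      (nat_mul.comp (const 4) p3))).to_comp, ?_⟩
  rintro X hX ⟨i, hi⟩ R hR
  have key : ∀ F : Finset ℕ, (↑F : Set ℕ) ⊆ X → 1 ≤ F.card → F.card ≤ 4 →
      c1 (∑ n ∈ F, n) = i.1 % 2 ∧ c2 (∑ n ∈ F, n) = i.1 / 2 % 2 ∧ c3 (∑ n ∈ F, n) = i.1 / 4 := by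
    intro F h1 h2 h3
    have := congrArg Fin.val (hi F h1 h2 h3)
    simp only at this
    have := b1 (∑ n ∈ F, n); have := b2 (∑ n ∈ F, n); have := b3 (∑ n ∈ F, n)
    omega
  have m1 : Mono4 c1 X := mono4_of fun F h1 h2 h3 => (key F h1 h2 h3).1
  have m2 : Mono4 c2 X := mono4_of fun F h1 h2 h3 => (key F h1 h2 h3).2.1
  have m3 : Mono4 c3 X := mono4_of fun F h1 h2 h3 => (key F h1 h2 h3).2.2
  have hF := far_of_mono hX m3
  obtain ⟨fl, t0, hex, hok⟩ := comb EU hF m1 m2
  obtain ⟨f, hf, hfR⟩ := sigma2_red hR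
  have l : Primrec fun m : ℕ => m.unpair.1 := fst.comp unpair
  have r : Primrec fun m : ℕ => m.unpair.2 := snd.comp unpair
  have hp : Primrec fun m : ℕ => m.unpair.2.unpair.1 := l.comp r
  have hq : Primrec fun m : ℕ => m.unpair.2.unpair.2.unpair.1 := l.comp (r.comp r)
  have hr : Primrec fun m : ℕ => m.unpair.2.unpair.2.unpair.2.unpair.1 :=
    l.comp (r.comp (r.comp r))
  have hk : Primrec fun m : ℕ => m.unpair.2.unpair.2.unpair.2.unpair.2.unpair.1 :=
    l.comp (r.comp (r.comp (r.comp r)))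
  have hk' : Primrec fun m : ℕ => m.unpair.2.unpair.2.unpair.2.unpair.2.unpair.2 :=
    r.comp (r.comp (r.comp (r.comp r)))
  refine search_red X _ (WitP EUP fl t0 (hf.comp l) hp hq hr hk hk')
    (AnsP EUP (hf.comp l) (nat_add.comp hp hq) hr) hp hq hr (fun x => ?_) ?_
  · obtain ⟨h, hh, h', hh', g, hg, K, K', hW⟩ := hex (f x)
    exact ⟨Nat.pair h (Nat.pair h' (Nat.pair g (Nat.pair K K'))), by simpa using hW,
      by simpa using hh, by simpa using hh', by simpa using hg⟩
  · intro x w hW h1 h2 h3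
    simp only [Nat.unpair_pair] at hW h1 h2 h3 ⊢
    rw [Set.mem_ofPred_eq, hfR, ← hok _ _ h1 _ h2 _ h3 _ _ hW]
    exact and_iff_right hW.2.2.2.1.2.2

end Pool.Agent.Results.MP_850d05_lc.DoubleJump
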