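import Pool.Agent.MP_850d05_lc.Mg.Main

namespace Pool.Agent.Results.MP_850d05_lc.NoSigmaFour

open Pool.Agent.MP_850d05_lc

/-- There is a computable two-colouring none of whose solutions to Hindman's theorem is a
Sigma `n` set for any `n ≤ 4`. -/
theorem result : ∃ c : ℕ → Fin 2, Computable c ∧
    ∀ X : Set ℕ, IsSolution c X → ∀ n ≤ 4, ¬ IsSigma n (fun x => x ∈ X) :=
  Pool.Agent.MP_850d05_lc.main

end Pool.Agent.Results.MP_850d05_lc.NoSigmaFour
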