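import Pool.Agent.MP_850d05_lc.H20.Main

namespace Pool.Agent.Results.MP_850d05_lc.TwoSumsArithmetical

open Pool.Agent.MP_850d05_lc.H20

/-- Hindman's theorem for sums of at most two elements has solutions of bounded arithmetical
level over any base class containing the colouring. -/
theorem result (k : ℕ) : ∃ n : ℕ, ∀ B : Set (ℕ → Prop), IsBase B → ∀ c : ℕ → Fin k,
    (fun x : ℕ => (c x.unpair.1 : ℕ) = x.unpair.2) ∈ B →
    ∃ X : Set ℕ, SigmaOver B n (fun x => x ∈ X) ∧ X.Infinite ∧ (∀ x ∈ X, 0 < x) ∧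
      ∃ i : Fin k, ∀ F : Finset ℕ, F.Nonempty → F.card ≤ 2 → (F : Set ℕ) ⊆ X →
        c (∑ x ∈ F, x) = i :=
  main k

end Pool.Agent.Results.MP_850d05_lc.TwoSumsArithmetical
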